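import Mathlib
import Pool.Agent.N365.LS.B
import Pool.Agent.N265.CV.HtcB

/-!
# The strong alternative for all curves of a given invariant over all extensions of a number field,
# from the poles of the invariant

This is `Pool.Agent.N751.LS.Core` (starting file) for poles given by absolute values.
-/

set_option autoImplicit false

namespace Pool.Agent.D0H60.LSF

open Finset Polynomial Module NumberField IsDedekindDomain Height TH951
open Pool.Agent.TH910.LS Pool.Agent.Y725.LS
open Pool.Agent.N365.LS (szp)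

/-- the alternative, with the constants `c₁` and `c₂`, for all forms of dimension `g` of the powers
of the curve `y² = x³ + a x + b` over `K` that are split by `L` -/
def Alternative (c₁ : ℝ) (c₂ g : ℕ) {K : Type} [Field K] [NumberField K] (a b : 𝓞 K) (L : Type)
    [Field L] [NumberField L] [Algebra K L] [DecidableEq L] : Prop :=
  ∀ (ρ : (L ≃ₐ[K] L) →* Matrix (Fin g) (Fin g) ℤ) (M : Matrix (Fin g) (Fin g) ℤ)
    (P : Fin g → Pts L a b) (T : Finset (HeightOneSpectrum (𝓞 L))),
    Faithful ρ → Polar ρ M → FixedPt ρ P → RamPrimes K T →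
      SubvarLe c₂ ρ M P ∨
      (¬ IsOfFinAddOrder P ∧
        c₁ * (1 + absH (jinv (a : K) b) + logNorms T / finrank ℚ L) ≤ chatM M P / finrank ℚ L)

theorem subvar_mono {K : Type} [Field K] [NumberField K] {a b : 𝓞 K} {g : ℕ} {L : Type}
    [Field L] [NumberField L] [Algebra K L] [DecidableEq L] {c c' : ℕ} (h : c ≤ c')
    {ρ : (L ≃ₐ[K] L) →* Matrix (Fin g) (Fin g) ℤ} {M : Matrix (Fin g) (Fin g) ℤ}
    {P : Fin g → Pts L a b} (hM : Polar ρ M) (hs : SubvarLe c ρ M P) : SubvarLe c' ρ M P := by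
  obtain ⟨m, β, hm, h1, h2, h3, n, hn0, hn, h4⟩ := hs
  have hdet : 0 < M.det := by
    have h5 := hM.1.det_pos
    have h6 : (M.map (Int.cast : ℤ → ℝ)).det = (M.det : ℝ) := by
      have := (Int.castRingHom ℝ).map_det M
      simp only [eq_intCast] at this
      rw [this]
      rfl
    rw [h6] at h5
    exact_mod_cast h5
  refine ⟨m, β, hm, h1, h2, h3.trans ?_, n, hn0, hn.trans h, h4⟩
  have h7 : (c : ℤ) ≤ c' := by exact_mod_cast h
  have h8 : (0 : ℤ) < (g.factorial : ℤ) := by exact_mod_cast Nat.factorial_pos g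
  exact mul_le_mul_of_nonneg_right h7 (by positivity)

theorem pos_bound {K : Type} [Field K] [NumberField K] (x : K) (L : Type) [Field L]
    [NumberField L] (T : Finset (HeightOneSpectrum (𝓞 L))) :
    0 ≤ 1 + absH x + logNorms T / finrank ℚ L := by
  have h2 : 0 ≤ absH x := by
    unfold absH
    exact div_nonneg (zero_le_logHeight₁ _) (Nat.cast_nonneg _)
  have h3 : 0 ≤ logNorms T / finrank ℚ L :=
    div_nonneg (Finset.sum_nonneg fun _ _ => Real.log_natCast_nonneg _) (Nat.cast_nonneg _)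
  linarith

/-- the primes of an extension above the poles -/
theorem poles_up {M K : Type} [Field M] [NumberField M] [Field K] [NumberField K] [Algebra M K]
    {j : M} (W : Finset (HeightOneSpectrum (𝓞 M))) (hW : ∀ w ∈ W, 1 < FinitePlace.mk w j) :
    ∃ V : Finset (FinitePlace K), (∀ v ∈ V, 1 < v.val (algebraMap M K j)) ∧
      ∑ w ∈ W, Real.log (Ideal.absNorm w.asIdeal) ≤ ∑ v ∈ V, Real.log (NF.Nm v) := by
  classical
  choose up hup using exists_above (K := M) (L := K)
  have hinj : Set.InjOn (fun w : HeightOneSpectrum (𝓞 M) => up (FinitePlace.mk w))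
      (W : Set (HeightOneSpectrum (𝓞 M))) := by
    intro w₁ _ w₂ _ h
    simp only at h
    have h1 : (FinitePlace.mk w₁ : FinitePlace M) = FinitePlace.mk w₂ := by
      rw [← hup (FinitePlace.mk w₁), ← hup (FinitePlace.mk w₂), h]
    have h2 := congrArg FinitePlace.maximalIdeal h1
    rwa [FinitePlace.maximalIdeal_mk, FinitePlace.maximalIdeal_mk] at h2
  refine ⟨W.image fun w => up (FinitePlace.mk w), ?_, ?_⟩
  · intro v hv
    obtain ⟨w, hw, rfl⟩ := Finset.mem_image.1 hv
    rw [ext_apply (K := M), hup]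
    exact one_lt_pow₀ (hW w hw) (ldeg_pos M _).ne'
  · rw [Finset.sum_image hinj]
    refine Finset.sum_le_sum fun w _ => ?_
    have h2 := Nm_below M (up (FinitePlace.mk w))
    rw [hup] at h2
    have h4 : NF.Nm (FinitePlace.mk w : FinitePlace M) = Ideal.absNorm w.asIdeal := by
      show Ideal.absNorm (FinitePlace.mk w : FinitePlace M).maximalIdeal.asIdeal = _
      rw [FinitePlace.maximalIdeal_mk]
    have h3 : NF.Nm (FinitePlace.mk w : FinitePlace M) ≤ NF.Nm (up (FinitePlace.mk w)) := by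
      rw [h2]
      refine Nat.le_self_pow ?_ _
      have := inert_pos M (up (FinitePlace.mk w))
      rw [hup] at this
      exact this.ne'
    have h5 : 0 < NF.Nm (FinitePlace.mk w : FinitePlace M) := by
      have := NF.one_lt_Nm (FinitePlace.mk w : FinitePlace M)
      omega
    rw [← h4]
    exact Real.log_le_log (by exact_mod_cast h5) (by exact_mod_cast h3)

theorem ht_up {M K : Type} [Field M] [NumberField M] [Field K] [NumberField K] [Algebra M K]
    {d : ℕ} (hK : finrank ℚ K ≤ d) (j : M) {σ X : ℝ} (hj : logHeight₁ j ≤ σ * X)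
    (hσ : 0 ≤ σ) {Y : ℝ} (hXY : X ≤ Y) : logHeight₁ (algebraMap M K j) ≤ d * σ * Y := by
  rw [Pool.Agent.N265.CV.ht1_ext M K j]
  have h1 : finrank M K ≤ d := by
    have h2 : finrank ℚ M * finrank M K = finrank ℚ K := finrank_mul_finrank ℚ M K
    have h3 : 0 < finrank ℚ M := finrank_pos
    nlinarith
  have h2 : (finrank M K : ℝ) ≤ d := by exact_mod_cast h1
  have h3 : σ * X ≤ σ * Y := mul_le_mul_of_nonneg_left hXY hσ
  calc (finrank M K : ℝ) * logHeight₁ j ≤ d * (σ * Y) :=
        mul_le_mul h2 (hj.trans h3) (zero_le_logHeight₁ j) (Nat.cast_nonneg d)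
    _ = _ := by ring

/-- the strong alternative for all curves of invariant `j` over all number fields of degree at
most `d` containing the number field `M ∋ j` -/
def StrongAt (c₁ : ℝ) (c₂ d g : ℕ) (κ : ℝ) {M : Type} [Field M] [NumberField M] (j : M) : Prop :=
  ∀ (K : Type) [Field K] [NumberField K] [Algebra M K], finrank ℚ K ≤ d →
    ∀ a b : 𝓞 K, 4 * (a : K) ^ 3 + 27 * (b : K) ^ 2 ≠ 0 →
      absH (a : K) + absH (b : K) ≤ κ * (1 + absH (jinv (a : K) b)) →
      jinv (a : K) b = algebraMap M K j →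
      ∀ (L : Type) [Field L] [NumberField L] [Algebra K L] [IsGalois K L] [DecidableEq L],
        ChatLim L a b ∧ Alternative c₁ c₂ g a b L

/-- the alternative from the poles -/
theorem strong_of_poles (d g : ℕ) (hg : 0 < g) (κ σ : ℝ) (hκ : 0 ≤ κ) (hσ : 0 ≤ σ) :
    ∃ c₁ : ℝ, 0 < c₁ ∧ ∃ c₂ : ℕ, ∀ (M : Type) [Field M] [NumberField M] (j : M)
      (W : Finset (HeightOneSpectrum (𝓞 M))), (∀ w ∈ W, 1 < FinitePlace.mk w j) →
      logHeight₁ j ≤ σ * ∑ w ∈ W, Real.log (Ideal.absNorm w.asIdeal) →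
        StrongAt c₁ c₂ d g κ j := by
  obtain ⟨c, δ, hc, hδ, c₂, h⟩ := strong_main d g 0 hg κ (d * σ) hκ
  obtain ⟨A, c', hc', c₂', h⟩ := h 1 one_ne_zero
  refine ⟨min c c', lt_min hc hc', max c₂ c₂', ?_⟩
  intro M _ _ j W hW hj K _ _ _ hK a b hab hab' hjK L _ _ _ _ _
  refine ⟨chatLim a b hab L, fun ρ N P T hf hM hP hT => ?_⟩
  obtain ⟨V, hV, hsum⟩ := poles_up (K := K) W hW
  have hX : 0 ≤ ∑ w ∈ W, Real.log (Ideal.absNorm w.asIdeal) :=
    Finset.sum_nonneg fun w _ => Real.log_natCast_nonneg _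
  have hSz := szp (by positivity) hV (ht_up hK j hj hσ hsum) hab hjK L hδ.le 1
  rcases h K hK a b hab hab' L hSz ρ N P T hf hM hP hT with k | ⟨k1, k2⟩
  · left
    split_ifs at k
    · exact subvar_mono (le_max_left _ _) hM k
    · exact subvar_mono (le_max_right _ _) hM k
  · right
    refine ⟨k1, le_trans (mul_le_mul_of_nonneg_right ?_ (pos_bound _ _ _)) k2⟩
    split_ifs
    · exact min_le_left _ _
    · exact min_le_right _ _

end Pool.Agent.D0H60.LSF
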