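import Pool.Agent.D0H60.VDR.Pt6

set_option autoImplicit false
set_option linter.unusedSectionVars false

/-!
# One exceptional set for countably many properties of points of degree `r`
-/

namespace Pool.Agent.D0H60.LSF

open NumberField IsDedekindDomain MvPolynomial Module Height
open scoped LinearAlgebra.Projectivization
open Pool.Agent.Results.MP_44a246_nt.BoundedDegreeHyperplanes (height toC fieldOf alpha toC_inj)
open Pool.Agent.N752.SU (spanDim Full DensityZero)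
open Pool.Agent.N752.HY
open Pool.Agent.N752.HY.Ext
open Pool.Agent.D0H60.VDR

/-- **one exceptional set** -/
theorem gen_exc : ∀ η : ℝ, 0 < η → ∃ c₀ : ℝ, 1 ≤ c₀ ∧
    ∀ (k : IntermediateField ℚ ℂ) [NumberField k] (m r n : ℕ), 1 ≤ m → 1 ≤ r →
      n = r * finrank ℚ k →
      (2 ≤ n → n + 1 ≤ m → 2 * alpha n c₀ η < m) ∧
      ((r = 1 ∧ 3 ≤ n * (m + 1)) ∨ (2 ≤ n ∧ 2 * alpha n c₀ η < m ∧ r ≤ m + 1) →
        3 ≤ n * (m + 1) ∧
        ∀ (ι : Type) [Countable ι] [Nonempty ι] (P : ι → PropK k m), (∀ i, AAP k n (P i)) →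
        ∃ E₀ : Set (ℙ ℂ (Fin (m + 1) → ℂ)), DensityZero (Full k m r) E₀ ∧
          ((r ≤ 2 ∨ (r : ℝ) * (r - 1) * (2 * alpha n c₀ η + 1) + r ≤ m + 1) →
            DensityZero (All k m r) (E₀ ∪ {P | spanDim k P ≠ r})) ∧
          ∀ i, ∃ T : ℝ, ∀ (K : IntermediateField ℚ ℂ) (hK : NumberField K) (h : k ≤ K)
            (Q : ℙ K (Fin (m + 1) → K)), fieldOf k (toC Q) = K → toC Q ∉ E₀ → T < height Q →
              P i K hK h Q) := by
  classical
  intro η hη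
  obtain ⟨c₀, hc₀, hα⟩ := Pool.Agent.W223.VD.Points.alpha_admissible hη
  refine ⟨c₀, hc₀, ?_⟩
  intro k _ m r n hm hr hn
  refine ⟨fun hn2 hmn => Pool.Agent.N752.SU.alpha_lt hn2 hmn _ _, ?_⟩
  intro hcase
  have hrm : r ≤ m + 1 := by
    rcases hcase with ⟨h1, -⟩ | ⟨-, -, h1⟩
    · omega
    · exact h1
  have hnm : 3 ≤ n * (m + 1) := by
    rcases hcase with ⟨-, h1⟩ | ⟨hn2, hmα, -⟩
    · exact h1
    · obtain ⟨hα1, hF⟩ := hα n hn2
      have hm2 : 2 ≤ m := by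
        have hα1' : 1 ≤ alpha n c₀ η := hα1
        have h1 : (2 : ℝ) < m := by linarith
        have h2 : 2 < m := by exact_mod_cast h1
        omega
      calc 3 ≤ 2 * (2 + 1) := by norm_num
        _ ≤ n * (m + 1) := Nat.mul_le_mul hn2 (by omega)
  have hcov : Cov k m r n := by
    rcases hcase with ⟨h1, -⟩ | ⟨hn2, hmα, -⟩
    · subst h1
      rw [hn, one_mul]
      exact cov_one k m
    · obtain ⟨hα1, hF⟩ := hα n hn2
      exact cov_alpha s_pts k hm r n hn hn2 hα1 hF hmα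
  refine ⟨hnm, fun ι _ _ P hP => ?_⟩
  obtain ⟨E₂, hE₂, hgd⟩ := Unp.t_UNP k m r n hm hn hr hrm hcov ι P hP
  refine ⟨E₂, hE₂, fun hcond => ?_, hgd⟩
  rcases hcase with ⟨h1, -⟩ | ⟨hn2, hmα, -⟩
  · subst h1
    exact dens_one k hE₂
  · obtain ⟨hα1, hF⟩ := hα n hn2
    exact dens_all k hm r n hn hn2 hr hrm hα1 hF hmα hE₂ hcond

/-- `min (n + 1, c n ^ η)` -/
noncomputable def threshold (c η : ℝ) (n : ℕ) : ℝ := min ((n : ℝ) + 1) (c * (n : ℝ) ^ η)

/-- **one exceptional set, with a simple condition on the dimension** -/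
theorem gen_thr (η : ℝ) (hη : 0 < η) : ∃ c₀ : ℝ,
    ∀ (k : IntermediateField ℚ ℂ) [NumberField k] (m r : ℕ), 1 ≤ m → 1 ≤ r →
      (r = 1 ∧ (2 ≤ m ∨ 2 ≤ finrank ℚ k)) ∨
        (r ≤ m + 1 ∧ threshold c₀ η (r * finrank ℚ k) ≤ m) →
      3 ≤ (r * finrank ℚ k) * (m + 1) ∧
      ∀ (ι : Type) [Countable ι] [Nonempty ι] (P : ι → PropK k m),
        (∀ i, AAP k (r * finrank ℚ k) (P i)) →
        ∃ E₀ : Set (ℙ ℂ (Fin (m + 1) → ℂ)), DensityZero (Full k m r) E₀ ∧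
          (r ≤ 2 ∨ (r : ℝ) * (r - 1) * (threshold c₀ η (r * finrank ℚ k) + 1) + r ≤ m + 1 →
            DensityZero (All k m r) (E₀ ∪ {P | spanDim k P ≠ r})) ∧
          ∀ i, ∃ T : ℝ, ∀ (K : IntermediateField ℚ ℂ) (hK : NumberField K) (h : k ≤ K)
            (Q : ℙ K (Fin (m + 1) → K)), fieldOf k (toC Q) = K → toC Q ∉ E₀ → T < height Q →
              P i K hK h Q := by
  classical
  obtain ⟨c₀, hc₀, hmain⟩ := gen_exc η hη
  refine ⟨2 * c₀ + 1, fun k _ m r hm hr hyp => ?_⟩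
  obtain ⟨n, hn⟩ : ∃ n : ℕ, n = r * finrank ℚ k := ⟨_, rfl⟩
  rw [← hn] at hyp ⊢
  have hk1 : 1 ≤ finrank ℚ k := finrank_pos
  have hrn : r ≤ n := by
    rw [hn]
    exact Nat.le_mul_of_pos_right r hk1
  have hn1 : 1 ≤ n := hr.trans hrn
  obtain ⟨-, hcases⟩ := hmain k m r n hm hr hn
  have hthr : 2 ≤ n → 2 * alpha n c₀ η < threshold (2 * c₀ + 1) η n := by
    intro hn2
    have hα' := (hmain k (n + 1) r n (by omega) hr hn).1 hn2 le_rfl
    push_cast at hα'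
    have hnη : 0 < (n : ℝ) ^ η := Real.rpow_pos_of_pos (by exact_mod_cast hn1) η
    have h1 : alpha n c₀ η ≤ c₀ * (n : ℝ) ^ η := min_le_right _ _
    refine lt_min hα' ?_
    calc _ ≤ 2 * (c₀ * (n : ℝ) ^ η) := by linarith
      _ < (2 * c₀ + 1) * (n : ℝ) ^ η := by linarith
  have hcase : (r = 1 ∧ 3 ≤ n * (m + 1)) ∨
      (2 ≤ n ∧ 2 * alpha n c₀ η < m ∧ r ≤ m + 1) := by
    rcases hyp with ⟨h1, h2⟩ | ⟨h1, h2⟩
    · refine Or.inl ⟨h1, ?_⟩
      rcases h2 with h2 | h2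
      · calc 3 ≤ 1 * (m + 1) := by omega
          _ ≤ n * (m + 1) := Nat.mul_le_mul_right _ hn1
      · have h3 : 2 ≤ n := by
          rw [hn, h1, one_mul]
          exact h2
        calc 3 ≤ 2 * (1 + 1) := by omega
          _ ≤ n * (m + 1) := Nat.mul_le_mul h3 (by omega)
    · by_cases hn2 : 2 ≤ n
      · exact Or.inr ⟨hn2, (hthr hn2).trans_le h2, h1⟩
      · have h3 : n = 1 := by omega
        refine Or.inl ⟨by omega, ?_⟩
        have h4 : (2 : ℝ) ≤ threshold (2 * c₀ + 1) η n := by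
          rw [h3]
          unfold threshold
          rw [Nat.cast_one, Real.one_rpow]
          exact le_min (by norm_num) (by linarith)
        have h5 : (2 : ℝ) ≤ m := h4.trans h2
        have h6 : 2 ≤ m := by exact_mod_cast h5
        rw [h3, one_mul]
        omega
  obtain ⟨hnm, hall⟩ := hcases hcase
  refine ⟨hnm, fun ι _ _ P hP => ?_⟩
  obtain ⟨E₀, hE₀, hdens, hT⟩ := hall ι P hP
  refine ⟨E₀, hE₀, fun hc => hdens ?_, hT⟩
  rcases hc with hc | hc
  · exact Or.inl hc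
  · by_cases h2 : r ≤ 2
    · exact Or.inl h2
    · refine Or.inr ?_
      have h3 := hthr (by omega)
      have h6 : (0 : ℝ) ≤ (r : ℝ) * (r - 1) := by
        have : (1 : ℝ) ≤ r := by exact_mod_cast hr
        exact mul_nonneg (by linarith) (by linarith)
      have h7 : (r : ℝ) * (r - 1) * (2 * alpha n c₀ η + 1) ≤
          (r : ℝ) * (r - 1) * (threshold (2 * c₀ + 1) η n + 1) :=
        mul_le_mul_of_nonneg_left (by linarith) h6
      linarith

end Pool.Agent.D0H60.LSF
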