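import Pool.Agent.D0H60.LSF.Tc
import Pool.Agent.D0H60.VDR.Fin

set_option autoImplicit false
set_option linter.unusedSectionVars false

/-!
# The poles of a rational function at almost all points
-/

namespace Pool.Agent.D0H60.LSF

open NumberField IsDedekindDomain MvPolynomial Module Height
open scoped LinearAlgebra.Projectivization
open Pool.Agent.H691R3 (fv fv_na fv_support_finite log_fv Nv log_Nv_pos)
open Pool.Agent.N752.HY
open Pool.Agent.N752.HY.Ext
open Pool.Agent.N752.HY.KPts (AdmK)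
open Pool.Agent.D0H60.VDR (lam_prod badn)
open Pool.Agent.N752.CP (fv_of_lam)

/-- the poles carry a positive proportion of the height -/
def Poles {K : Type} [Field K] [NumberField K] (N : ℕ) (j : K) : Prop :=
  ∃ W : Finset (HeightOneSpectrum (𝓞 K)), (∀ w ∈ W, 1 < FinitePlace.mk w j) ∧
    logHeight₁ j ≤ 2 * ((N : ℝ) + 1) * ∑ w ∈ W, Real.log (Ideal.absNorm w.asIdeal)

section

variable {K : Type} [Field K] [NumberField K] {m : ℕ} {A B : MvPolynomial (Fin (m + 1)) (𝓞 K)}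
  {N : ℕ}

/-- the height of the value -/
theorem ht_le (hA : A.IsHomogeneous N) (hB : B.IsHomogeneous N) : ∃ C : ℝ,
    ∀ x : Fin (m + 1) → K, logHeight₁ (aeval x A / aeval x B) ≤ C + N * logHeight x := by
  obtain ⟨C, hC⟩ := logHeight_eval_le' (K := K) (N := N)
    (p := ![map (algebraMap (𝓞 K) K) A, map (algebraMap (𝓞 K) K) B]) (by
      intro i
      fin_cases i
      · exact hA.map _
      · exact hB.map _)
  refine ⟨C, fun x => ?_⟩
  rw [logHeight₁_div_eq_logHeight]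
  have h1 := hC x
  have h2 : (fun j : Fin 2 => eval x
      ((![map (algebraMap (𝓞 K) K) A, map (algebraMap (𝓞 K) K) B] :
        Fin 2 → MvPolynomial (Fin (m + 1)) K) j)) = ![aeval x A, aeval x B] := by
    funext j
    fin_cases j
    · show eval x (map (algebraMap (𝓞 K) K) A) = aeval x A
      rw [eval_map, aeval_def]
    · show eval x (map (algebraMap (𝓞 K) K) B) = aeval x B
      rw [eval_map, aeval_def]
  rw [h2] at h1
  exact h1

/-- **the poles of a rational function at almost all points over `K`** -/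
theorem poles_aa (φ : K →+* ℂ) (hd : 3 ≤ finrank ℚ K * (m + 1)) (hN : 1 ≤ N)
    (hA : A.IsHomogeneous N) (hB : B.IsHomogeneous N) (hB0 : B ≠ 0)
    (hcop : ∀ P : MvPolynomial (Fin (m + 1)) K, Irreducible P →
      P ∣ map (algebraMap (𝓞 K) K) B → ¬ P ∣ map (algebraMap (𝓞 K) K) A) :
    AA fun Q : ℙ K (Fin (m + 1) → K) => aeval Q.rep B ≠ 0 ∧
      Poles N (aeval Q.rep A / aeval Q.rep B) := by
  classical
  obtain ⟨l, P, κ₁, a, b, ha, hb, hP, hirr, hab⟩ := Pool.Agent.N752.HY.Fac.fac1 B N hB hB0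
  have haK : algebraMap (𝓞 K) K a ≠ 0 := by
    rw [Ne, FaithfulSMul.algebraMap_eq_zero_iff]
    exact ha
  have hbK : algebraMap (𝓞 K) K b ≠ 0 := by
    rw [Ne, FaithfulSMul.algebraMap_eq_zero_iff]
    exact hb
  have habK : C (algebraMap (𝓞 K) K a) * map (algebraMap (𝓞 K) K) B =
      C (algebraMap (𝓞 K) K b) * ∏ i, map (algebraMap (𝓞 K) K) (P i) := by
    have h1 := congrArg (map (algebraMap (𝓞 K) K)) hab
    rw [map_mul, map_mul, map_C, map_C, map_prod] at h1
    exact h1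
  have hua : IsUnit (C (algebraMap (𝓞 K) K a) : MvPolynomial (Fin (m + 1)) K) :=
    (isUnit_iff_ne_zero.2 haK).map C
  have hPF : ∏ i, map (algebraMap (𝓞 K) K) (P i) ∣ map (algebraMap (𝓞 K) K) B := by
    have h1 : ∏ i, map (algebraMap (𝓞 K) K) (P i) ∣
        C (algebraMap (𝓞 K) K a) * map (algebraMap (𝓞 K) K) B := by
      rw [habK]
      exact Dvd.intro_left _ rfl
    exact (hua.dvd_mul_left).1 h1
  have hPiF : ∀ i, map (algebraMap (𝓞 K) K) (P i) ∣ map (algebraMap (𝓞 K) K) B := fun i =>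
    (Finset.dvd_prod_of_mem _ (Finset.mem_univ i)).trans hPF
  have hsum : N = ∑ i, κ₁ i := by
    have h1 : (C a * B).IsHomogeneous N := by
      have := (isHomogeneous_C (Fin (m + 1)) a).mul hB
      rwa [zero_add] at this
    have h2 : (C b * ∏ i, P i).IsHomogeneous (∑ i, κ₁ i) := by
      have := (isHomogeneous_C (Fin (m + 1)) b).mul
        (IsHomogeneous.prod Finset.univ P κ₁ fun i _ => hP i)
      rwa [zero_add] at this
    rw [← hab] at h2
    refine h1.inj_right h2 (mul_ne_zero ?_ hB0)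
    rw [Ne, C_eq_zero]
    exact ha
  have hl : 0 < l := by
    rcases Nat.eq_zero_or_pos l with h | h
    · subst h
      rw [Finset.univ_eq_empty, Finset.sum_empty] at hsum
      omega
    · exact h
  obtain ⟨i₀, -⟩ : ∃ i₀ : Fin l, i₀ = ⟨0, hl⟩ := ⟨_, rfl⟩
  obtain ⟨B1, hB1⟩ : ∃ B1 : Finset (HeightOneSpectrum (𝓞 K)), B1 =
    (fv_support_finite haK).toFinset ∪ (fv_support_finite hbK).toFinset := ⟨_, rfl⟩
  have b0 := AA.all (Finset.univ : Finset (Fin l)) fun i _ =>
    hit_one φ hd (hP i) hA (hirr i) (hcop _ (hirr i) (hPiF i)) B1 (δ := 1 / 4) (by norm_num)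
  obtain ⟨C₁, hC₁⟩ := ht_le hA hB
  refine (b0.and (AA.large (2 * |C₁|))).mono ?_
  rintro Q ⟨hQ, hlarge⟩
  have hQ' : ∀ i, _ := fun i => hQ i (Finset.mem_univ i)
  have hxP : ∀ i, aeval Q.rep (P i) ≠ 0 := fun i => (hQ' i).1
  have hx := Q.rep_nonzero
  have hxA : aeval Q.rep A ≠ 0 := (hQ' i₀).2.1
  have hevF : algebraMap (𝓞 K) K a * aeval Q.rep B =
      algebraMap (𝓞 K) K b * ∏ i, aeval Q.rep (P i) := by
    have h1 := congrArg (aeval Q.rep) hab
    rw [map_mul, map_mul, map_prod] at h1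
    simpa [aeval_C] using h1
  have hxF : aeval Q.rep B ≠ 0 := by
    intro h0
    rw [h0, mul_zero, eq_comm, mul_eq_zero] at hevF
    rcases hevF with h | h
    · exact hbK h
    · exact Finset.prod_ne_zero_iff.2 (fun i _ => hxP i) h
  -- the local heights of `B`
  have hlamF : ∀ v : HeightOneSpectrum (𝓞 K), v ∉ B1 →
      lam K B N Q.rep v = ∑ i, lam K (P i) (κ₁ i) Q.rep v := by
    intro v hv
    rw [hB1, Finset.mem_union, not_or, Set.Finite.mem_toFinset,
      Set.Finite.mem_toFinset] at hv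
    obtain ⟨hva, hvb⟩ := hv
    simp only [Set.mem_ofPred_eq, not_not] at hva hvb
    have h0 : aeval Q.rep (∏ i, P i) ≠ 0 := by
      rw [map_prod]
      exact Finset.prod_ne_zero_iff.2 fun i _ => hxP i
    rw [← lam_prod Finset.univ P κ₁ hx (fun i _ => hxP i) v, ← hsum]
    have e1 := lam_sub (L := K) (κ := N) hx hxF v
    have e2 := lam_sub (L := K) (κ := N) hx h0 v
    have hid : ∀ z : K, algebraMap K K z = z := fun z => rfl
    simp only [hid] at e1 e2
    rw [e1, e2]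
    have h3 := congrArg (fv v) hevF
    rw [map_mul, map_mul, hva, hvb, one_mul, one_mul, ← map_prod] at h3
    rw [h3]
  refine ⟨hxF, hit (P i₀) A (κ₁ i₀) N B1 Q.rep, fun v hv => ?_, ?_⟩
  · rw [mem_hit hx (hxP i₀)] at hv
    obtain ⟨c1, c2, c3⟩ := hv
    have hs : 0 < ⨆ j, fv v (Q.rep j) := sup_pos' (fv v) hx
    have h1 : 0 < lam K B N Q.rep v := by
      rw [hlamF v c2]
      exact c1.trans_le (Finset.single_le_sum (f := fun i => lam K (P i) (κ₁ i) Q.rep v)
        (fun i _ => lam_nonneg (hP i) (hxP i) v) (Finset.mem_univ i₀))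
    have h2 : lam K A N Q.rep v = 0 := le_antisymm (not_lt.1 c3) (lam_nonneg hA hxA v)
    have h3 := fv_of_lam hx hxA v 0 h2
    have h4 := fv_of_lam hx hxF v (lam K B N Q.rep v) rfl
    rw [neg_zero, Real.exp_zero, mul_one] at h3
    show 1 < fv v (aeval Q.rep A / aeval Q.rep B)
    rw [map_div₀, h3, h4, one_lt_div (by positivity)]
    refine mul_lt_of_lt_one_right (pow_pos hs N) ?_
    rw [Real.exp_lt_one_iff]
    linarith
  · have h5 := (hQ' i₀).2.2
    have h6 := hC₁ Q.rep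
    have hn1 : (1 : ℝ) ≤ finrank ℚ K := by exact_mod_cast (finrank_pos (R := ℚ) (M := K))
    have hlog : logHeight Q.rep = finrank ℚ K * hgt Q.rep := by
      unfold hgt
      field_simp
    rw [hlog] at h6
    have h7 : 2 * |C₁| ≤ finrank ℚ K * hgt Q.rep := by
      have := le_mul_of_one_le_left (hgt0 Q.rep) hn1
      linarith
    have h8 := le_abs_self C₁
    have h9 : (0 : ℝ) ≤ N := Nat.cast_nonneg _
    obtain ⟨X, hX⟩ : ∃ X : ℝ, X = finrank ℚ K * hgt Q.rep := ⟨_, rfl⟩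
    rw [← hX] at h5 h6 h7
    have h10 : 0 ≤ X := le_trans (by positivity) h7
    obtain ⟨S₁, hS₁⟩ : ∃ S₁ : ℝ, S₁ = ∑ v ∈ hit (P i₀) A (κ₁ i₀) N B1 Q.rep,
      Real.log (Ideal.absNorm v.asIdeal) := ⟨_, rfl⟩
    rw [← hS₁] at h5 ⊢
    have h11 : ((N : ℝ) + 1) * X ≤ 2 * ((N : ℝ) + 1) * S₁ := by
      have : X ≤ 2 * S₁ := by linarith
      calc ((N : ℝ) + 1) * X ≤ ((N : ℝ) + 1) * (2 * S₁) :=
            mul_le_mul_of_nonneg_left this (by linarith)
        _ = _ := by ring
    linarith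

end

variable {m : ℕ}

/-- the conditions on `J = A / B` -/
def AdJ (k : IntermediateField ℚ ℂ) [NumberField k] (A B : MvPolynomial (Fin (m + 1)) (𝓞 k))
    (N : ℕ) : Prop :=
  1 ≤ N ∧ A.IsHomogeneous N ∧ B.IsHomogeneous N ∧ B ≠ 0 ∧
    ∀ P : MvPolynomial (Fin (m + 1)) k, P ∣ map (algebraMap (𝓞 k) k) A →
      P ∣ map (algebraMap (𝓞 k) k) B → IsUnit P

/-- the property of the points -/
def PrJ (k : IntermediateField ℚ ℂ) [NumberField k] (m : ℕ)
    (i : (MvPolynomial (Fin (m + 1)) (𝓞 k) × MvPolynomial (Fin (m + 1)) (𝓞 k)) × ℕ) : PropK k m :=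
  fun K _ h Q => AdJ k i.1.1 i.1.2 i.2 → aeval Q.rep (upK h i.1.2) ≠ 0 ∧
    Poles i.2 (aeval Q.rep (upK h i.1.1) / aeval Q.rep (upK h i.1.2))

theorem aap_poles (k : IntermediateField ℚ ℂ) [NumberField k] (n : ℕ) (hnm : 3 ≤ n * (m + 1))
    (i : (MvPolynomial (Fin (m + 1)) (𝓞 k) × MvPolynomial (Fin (m + 1)) (𝓞 k)) × ℕ) :
    AAP k n (PrJ k m i) := by
  obtain ⟨⟨A, B⟩, N⟩ := i
  intro K hK h hKn
  by_cases hg : AdJ k A B N
  swap
  · exact AA.triv.mono fun Q _ h1 => absurd h1 hg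
  obtain ⟨g1, g2, g3, g4, g5⟩ := id hg
  letI : Algebra k K := (IntermediateField.inclusion h).toRingHom.toAlgebra
  have hst : IsScalarTower ℚ k K := IsScalarTower.of_algebraMap_eq fun x => by
    apply Subtype.ext
    show ((algebraMap ℚ K x : K) : ℂ) = ((algebraMap ℚ k x : k) : ℂ)
    simp
  have hfd : FiniteDimensional k K := FiniteDimensional.right ℚ k K
  have hal : algebraMap k K = (IntermediateField.inclusion h).toRingHom := rfl
  have hBk : map (algebraMap (𝓞 k) k) B ≠ 0 := by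
    intro h0
    apply g4
    exact map_injective _ (FaithfulSMul.algebraMap_injective (𝓞 k) k) (by rw [h0, map_zero])
  have key := poles_aa (K := K) (m := m) (A := upK h A) (B := upK h B) (algebraMap K ℂ)
    (by rw [hKn]; exact hnm) g1 (g2.map _) (g3.map _) (upK_ne h g4) (by
      intro P hP h1
      rw [Pool.Agent.D0H60.VDR.map_upK, ← hal] at h1 ⊢
      exact cop2 hBk g5 hP h1)
  exact key.mono fun Q hQ _ => hQ

end Pool.Agent.D0H60.LSF
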