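import Pool.Agent.D0H60.VDR.Aa
import Pool.Agent.D0H60.VDR.Cop

set_option autoImplicit false
set_option linter.unusedSectionVars false

/-!
# Almost all points meet a form of any degree at primes of large norm
-/

namespace Pool.Agent.D0H60.LSF

open NumberField IsDedekindDomain MvPolynomial Module Height
open scoped LinearAlgebra.Projectivization
open Pool.Agent.H691R3 (fv fv_na fv_support_finite log_fv Nv log_Nv_pos)
open Pool.Agent.N752.HY
open Pool.Agent.N752.HY.Ext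
open Pool.Agent.N752.HY.KPts (AdmK)
open Pool.Agent.R366.NF (idealHeight)

section

variable {K : Type} [Field K] [NumberField K] {m : ℕ} {F G : MvPolynomial (Fin (m + 1)) (𝓞 K)}
  {κ ε : ℕ} {x : Fin (m + 1) → K}

open Classical in
/-- the primes outside `Bad` at which `x` meets `F = 0` and does not meet `G = 0` -/
noncomputable def hit (F G : MvPolynomial (Fin (m + 1)) (𝓞 K)) (κ ε : ℕ)
    (Bad : Finset (HeightOneSpectrum (𝓞 K))) (x : Fin (m + 1) → K) :
    Finset (HeightOneSpectrum (𝓞 K)) :=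
  if h : {v : HeightOneSpectrum (𝓞 K) | 0 < lam K F κ x v}.Finite then
    h.toFinset.filter fun v => v ∉ Bad ∧ ¬ 0 < lam K G ε x v else ∅

lemma mem_hit (hx : x ≠ 0) (hl : aeval x F ≠ 0) (Bad : Finset (HeightOneSpectrum (𝓞 K)))
    (v : HeightOneSpectrum (𝓞 K)) : v ∈ hit F G κ ε Bad x ↔ 0 < lam K F κ x v ∧ v ∉ Bad ∧
      ¬ 0 < lam K G ε x v := by
  classical
  have hfin : {v : HeightOneSpectrum (𝓞 K) | 0 < lam K F κ x v}.Finite :=
    (lam_support (L := K) (κ := κ) hx hl).subset fun v hv => (ne_of_gt hv)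
  unfold hit
  rw [dif_pos hfin]
  simp only [Finset.mem_filter, Set.Finite.mem_toFinset, Set.mem_ofPred_eq]

theorem cnt_hit (hF : F.IsHomogeneous κ) (hG : G.IsHomogeneous ε)
    (Bad : Finset (HeightOneSpectrum (𝓞 K))) : ∃ C : ℝ, ∀ x : Fin (m + 1) → K, x ≠ 0 →
      aeval x F ≠ 0 → aeval x G ≠ 0 →
      finrank ℚ K * cnt K ∅ (fun _ : Fin 1 => F) (fun _ => κ) Finset.univ x -
        idealHeight F G κ ε x - C ≤
        ∑ v ∈ hit F G κ ε Bad x, Real.log (Ideal.absNorm v.asIdeal) := by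
  classical
  obtain ⟨C₂, hC₂⟩ := Pool.Agent.N752.HY.Ovl.t_OVL K inferInstance inferInstance m F G κ ε hF hG
  refine ⟨C₂ + ∑ v ∈ Bad, Real.log (Ideal.absNorm v.asIdeal), fun x hx hl hG0 => ?_⟩
  obtain ⟨-, hov⟩ := hC₂ x hx hl hG0
  have hd : (0 : ℝ) < finrank ℚ K := by exact_mod_cast finrank_pos
  have hfin : {v : HeightOneSpectrum (𝓞 K) | 0 < lam K F κ x v}.Finite :=
    (lam_support (L := K) (κ := κ) hx hl).subset fun v hv => (ne_of_gt hv)
  have hlogn : ∀ v : HeightOneSpectrum (𝓞 K), 0 ≤ Real.log (Ideal.absNorm v.asIdeal : ℝ) :=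
    fun v => Real.log_natCast_nonneg _
  have h1 : finrank ℚ K * cnt K ∅ (fun _ : Fin 1 => F) (fun _ => κ) Finset.univ x =
      ∑ v ∈ hfin.toFinset, Real.log (Ideal.absNorm v.asIdeal) := by
    unfold cnt
    rw [mul_div_cancel₀ _ hd.ne', finsum_eq_sum_of_support_subset (s := hfin.toFinset)]
    · refine Finset.sum_congr rfl fun v hv => ?_
      have hi := (Set.Finite.mem_toFinset _).1 hv
      exact if_pos ⟨fun p hp => absurd hp (Finset.notMem_empty p), 0, Finset.mem_univ 0, hi⟩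
    · intro v hv
      rw [Finset.mem_coe, Set.Finite.mem_toFinset]
      by_contra hc
      refine hv (if_neg ?_)
      rintro ⟨-, i, -, hi⟩
      exact hc hi
  obtain ⟨A, hA⟩ : ∃ A : Finset (HeightOneSpectrum (𝓞 K)), A = hfin.toFinset := ⟨_, rfl⟩
  have hAm : ∀ v, v ∈ A ↔ 0 < lam K F κ x v := by
    intro v
    rw [hA, Set.Finite.mem_toFinset]
    exact Iff.rfl
  rw [← hA] at h1
  obtain ⟨Pg, hPg⟩ : ∃ Pg : Finset (HeightOneSpectrum (𝓞 K)), Pg = A.filter fun v =>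
    0 < lam K G ε x v := ⟨_, rfl⟩
  have f7 : ∑ v ∈ Pg, Real.log (Ideal.absNorm v.asIdeal) ≤ idealHeight F G κ ε x + C₂ := by
    refine le_trans (le_of_eq ?_) hov
    symm
    have hset : {v : HeightOneSpectrum (𝓞 K) | 0 < lam K F κ x v ∧ 0 < lam K G ε x v} = ↑Pg := by
      ext v
      rw [hPg, Finset.coe_filter]
      simp only [Set.mem_ofPred_eq, hAm]
    rw [hset, finsum_mem_coe_finset]
  have f8 : ∑ v ∈ A, Real.log (Ideal.absNorm v.asIdeal) ≤
      ∑ v ∈ hit F G κ ε Bad x, Real.log (Ideal.absNorm v.asIdeal) +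
      (∑ v ∈ Bad, Real.log (Ideal.absNorm v.asIdeal) +
          ∑ v ∈ Pg, Real.log (Ideal.absNorm v.asIdeal)) := by
    have hsub : A ⊆ hit F G κ ε Bad x ∪ (Bad ∪ Pg) := by
      intro v hv
      by_cases hvT : v ∈ Bad
      · exact Finset.mem_union_right _ (Finset.mem_union_left _ hvT)
      by_cases hvg : 0 < lam K G ε x v
      · refine Finset.mem_union_right _ (Finset.mem_union_right _ ?_)
        rw [hPg, Finset.mem_filter]
        exact ⟨hv, hvg⟩
      refine Finset.mem_union_left _ ?_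
      rw [mem_hit hx hl]
      exact ⟨(hAm v).1 hv, hvT, hvg⟩
    refine (Finset.sum_le_sum_of_subset_of_nonneg hsub fun v _ _ => hlogn v).trans ?_
    have hu : ∀ A B : Finset (HeightOneSpectrum (𝓞 K)),
        ∑ v ∈ A ∪ B, Real.log (Ideal.absNorm v.asIdeal : ℝ) ≤
        ∑ v ∈ A, Real.log (Ideal.absNorm v.asIdeal : ℝ) +
          ∑ v ∈ B, Real.log (Ideal.absNorm v.asIdeal : ℝ) := by
      intro A B
      rw [← Finset.sum_union_inter]
      exact le_add_of_nonneg_right (Finset.sum_nonneg fun v _ => hlogn v)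
    have u1 := hu (hit F G κ ε Bad x) (Bad ∪ Pg)
    have u2 := hu Bad Pg
    linarith
  rw [h1]
  linarith

/-- an irreducible form of any degree -/
theorem hit_one (φ : K →+* ℂ) (hd : 3 ≤ finrank ℚ K * (m + 1)) (hF : F.IsHomogeneous κ)
    (hG : G.IsHomogeneous ε) (hirr : Irreducible (map (algebraMap (𝓞 K) K) F))
    (hcop : ¬ map (algebraMap (𝓞 K) K) F ∣ map (algebraMap (𝓞 K) K) G)
    (Bad : Finset (HeightOneSpectrum (𝓞 K))) {δ : ℝ} (hδ : 0 < δ) :
    AA fun Q : ℙ K (Fin (m + 1) → K) => aeval Q.rep F ≠ 0 ∧ aeval Q.rep G ≠ 0 ∧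
      (1 - δ) * (finrank ℚ K * hgt Q.rep) ≤
        ∑ v ∈ hit F G κ ε Bad Q.rep, Real.log (Ideal.absNorm v.asIdeal) := by
  have hGne : G ≠ 0 := by
    intro h0
    apply hcop
    rw [h0, map_zero]
    exact dvd_zero _
  obtain ⟨C₀, hC₀⟩ := cnt_hit hF hG Bad
  have A1 : AdmK φ (fun _ : Fin 1 => F) (fun _ => κ) (fun _ => 1) (fun _ : Fin 1 => F)
      (fun _ => G) (fun _ => κ) (fun _ => ε) :=
    ⟨fun _ => hF, fun _ => hirr, fun i i' hi => absurd (Subsingleton.elim i i') hi,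
      fun _ => Or.inl le_rfl, fun _ => hF, fun _ => hG, fun _ => hirr, fun _ => hcop⟩
  have hθ : 1 - δ / 2 < ∑ _i : Fin 1, ((1 : ℕ) : ℝ) := by
    rw [Finset.univ_unique, Finset.sum_singleton]
    push_cast
    linarith
  have b1 := KPts.aa_of_adm φ hd A1 1 zero_le_one _ hθ
  have b2 := Prx.prx (K := K) (m := m) Pl1.t_PL1 Pl2.t_PL2 ε G hG hGne ∅ (by simp) one_pos
  refine ((b1.and b2).and (AA.large (2 * |C₀| / δ))).mono ?_
  rintro Q ⟨⟨⟨h1, h2⟩, h3, -⟩, h4⟩
  refine ⟨h1 0, h3, ?_⟩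
  obtain ⟨n, hn⟩ : ∃ n : ℝ, n = finrank ℚ K := ⟨_, rfl⟩
  have hn1 : 1 ≤ n := by
    rw [hn]
    exact_mod_cast (finrank_pos (R := ℚ) (M := K))
  have hn0 : 0 < n := by linarith
  have hh0 : 0 ≤ hgt Q.rep := hgt0 _
  have a2 := hC₀ Q.rep Q.rep_nonzero (h1 0) h3
  rw [Finset.univ_unique, Finset.sum_singleton, one_mul] at h2
  obtain ⟨I, hI⟩ : ∃ I : ℝ, I = idealHeight F G κ ε Q.rep := ⟨_, rfl⟩
  obtain ⟨c, hc⟩ : ∃ c : ℝ, c = cnt K ∅ (fun _ : Fin 1 => F) (fun _ => κ) Finset.univ Q.rep :=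
    ⟨_, rfl⟩
  rw [← Finset.univ_unique, ← hc] at h2
  rw [← hn] at h2 a2 ⊢
  rw [← hI] at h2 a2
  rw [← hc] at a2
  have a3 := mul_le_mul_of_nonneg_left h2 hn0.le
  have a4 : n * ((1 - δ / 2) * hgt Q.rep + I / n) =
      (n * hgt Q.rep) - δ / 2 * (n * hgt Q.rep) + I := by
    field_simp
  rw [a4] at a3
  have a5 : 2 * |C₀| < δ * hgt Q.rep := by
    rw [div_lt_iff₀ hδ] at h4
    linarith
  have a7 : δ * hgt Q.rep ≤ δ * (n * hgt Q.rep) := by
    refine mul_le_mul_of_nonneg_left ?_ hδ.le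
    exact le_mul_of_one_le_left hh0 hn1
  have a8 := le_abs_self C₀
  obtain ⟨X, hX⟩ : ∃ X : ℝ, X = n * hgt Q.rep := ⟨_, rfl⟩
  rw [← hX] at a3 a7 ⊢
  rw [sub_mul]
  linarith

end

/-- coprime over `k`, coprime over `K` -/
theorem cop2 {k K σ : Type} [Field k] [Field K] [Algebra k K] [FiniteDimensional k K]
    {A B : MvPolynomial σ k} (hB : B ≠ 0) (hAB : ∀ P, P ∣ A → P ∣ B → IsUnit P)
    {P : MvPolynomial σ K} (hP : Irreducible P) (h1 : P ∣ map (algebraMap k K) B) :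
    ¬ P ∣ map (algebraMap k K) A := by
  intro h2
  have h3 := (UniqueFactorizationMonoid.factors_prod hB).map
    (MvPolynomial.map (algebraMap k K) : MvPolynomial σ k →+* MvPolynomial σ K)
  have h4 : P ∣ MvPolynomial.map (algebraMap k K) (UniqueFactorizationMonoid.factors B).prod :=
    h1.trans h3.symm.dvd
  rw [map_multiset_prod] at h4
  obtain ⟨f, hf, h5⟩ := hP.prime.exists_mem_multiset_map_dvd h4
  have hfi := UniqueFactorizationMonoid.irreducible_of_factor f hf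
  have hfB := UniqueFactorizationMonoid.dvd_of_mem_factors hf
  by_cases h6 : f ∣ A
  · exact hfi.not_isUnit (hAB f h6 hfB)
  · exact hP.not_isUnit (Pool.Agent.D0H60.VDR.cop hfi h6 h5 h2)

end Pool.Agent.D0H60.LSF
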